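import Mathlib
import Pool.Agent.H597Z.GoodDefs
import Pool.Agent.H597Z.GoodMain

set_option autoImplicit false

namespace Pool.Agent.Results.MP_54c2ef_al.AGoodAut

open Pool.Agent.H597Z.Good

/-- Over every field, every good endomorphism of the free associative algebra on `n` generators
is an automorphism, whichever way the product of two maps in the definition is read. -/
theorem result (K : Type*) [Field K] (n : ℕ)
    (φ : FreeAlgebra K (Fin n) →ₐ[K] FreeAlgebra K (Fin n)) (h : IsGood φ ∨ IsGoodRev φ) :
    Function.Bijective φ :=
  h.elim (good_bij φ) (goodRev_bij φ)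

end Pool.Agent.Results.MP_54c2ef_al.AGoodAut
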